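import Pool.Agent.Helper97.QC.PDef
import Pool.Agent.Helper93.QC.E1

/-!
Quasi-critical two-dimensional directed polymers (MP_f3a553_pr), part P5: the environment
structure from the law of the disorder.
-/

set_option autoImplicit false

open MeasureTheory ProbabilityTheory Filter Finset Topology

namespace Pool.Agent.Helper79.QC

open Pool.Agent.Helper97.CP Pool.Agent.Helper97.QC

/-- everything except the bounds of the third and fourth moment -/
private theorem P5_core {Ω : Type*} [MeasurableSpace Ω] (P : Measure Ω) [IsProbabilityMeasure P]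
    (μ : Measure ℝ) [IsProbabilityMeasure μ]
    (hi : ∀ β : ℝ, 0 ≤ β → Integrable (fun x => Real.exp (β * x)) μ)
    (om : ℕ → Z2 → Ω → ℝ) (hom : ∀ n x, Measurable (om n x))
    (hind : iIndepFun (fun p : ℕ × Z2 => om p.1 p.2) P) (hlaw : ∀ n x, P.map (om n x) = μ)
    (β : ℝ) (hβ : 0 ≤ β) (C : ℝ) (hC : 0 ≤ C)
    (h3 : ∫ x, |Real.exp (β * x - Real.log (∫ x, Real.exp (β * x) ∂μ)) - 1| ^ 3 ∂μ ≤
        C * (Real.exp (Real.log (∫ x, Real.exp (2 * β * x) ∂μ) -
          2 * Real.log (∫ x, Real.exp (β * x) ∂μ)) - 1))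
    (h4 : ∫ x, |Real.exp (β * x - Real.log (∫ x, Real.exp (β * x) ∂μ)) - 1| ^ 4 ∂μ ≤
        C * (Real.exp (Real.log (∫ x, Real.exp (2 * β * x) ∂μ) -
          2 * Real.log (∫ x, Real.exp (β * x) ∂μ)) - 1))
    (hs : 0 ≤ Real.exp (Real.log (∫ x, Real.exp (2 * β * x) ∂μ) -
          2 * Real.log (∫ x, Real.exp (β * x) ∂μ)) - 1) :
    PEnv P (fun n x w => Real.exp (β * om n x w - Real.log (∫ x, Real.exp (β * x) ∂μ)))
      (Real.exp (Real.log (∫ x, Real.exp (2 * β * x) ∂μ) -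
        2 * Real.log (∫ x, Real.exp (β * x) ∂μ)) - 1) C := by
  have hm1 : 0 < ∫ x, Real.exp (β * x) ∂μ := integral_exp_pos (hi β hβ)
  have hm2 : 0 < ∫ x, Real.exp (2 * β * x) ∂μ := integral_exp_pos (hi (2 * β) (by linarith))
  have e1 : Real.exp (Real.log (∫ x, Real.exp (β * x) ∂μ)) = ∫ x, Real.exp (β * x) ∂μ :=
    Real.exp_log hm1
  have e2 : Real.exp (Real.log (∫ x, Real.exp (2 * β * x) ∂μ)) = ∫ x, Real.exp (2 * β * x) ∂μ :=
    Real.exp_log hm2
  set Λ := Real.log (∫ x, Real.exp (β * x) ∂μ) with hΛ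
  set Λ2 := Real.log (∫ x, Real.exp (2 * β * x) ∂μ) with hΛ2
  set f : ℝ → ℝ := fun x => Real.exp (β * x - Λ) with hf
  have mf : Measurable f := by rw [hf]; fun_prop
  have int_map : ∀ (g : ℝ → ℝ), Measurable g → ∫ w, g (om 0 0 w) ∂P = ∫ x, g x ∂μ := by
    intro g hg
    rw [← hlaw 0 0, integral_map (hom 0 0).aemeasurable hg.aestronglyMeasurable]
  refine
    { meas := fun n x => mf.comp (hom n x)
      pos := fun n x w => Real.exp_pos _
      indep := ?_
      ident := ?_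
      l4 := ?_
      m1 := ?_
      m2 := ?_
      m3 := ?_
      m4 := ?_
      s0 := hs
      C0 := hC }
  · exact hind.comp (fun _ => f) (fun _ => mf)
  · intro n x
    have : IdentDistrib (om n x) (om 0 0) P P :=
      ⟨(hom n x).aemeasurable, (hom 0 0).aemeasurable, by rw [hlaw, hlaw]⟩
    exact this.comp mf
  · have h : Integrable (fun x => f x ^ 4) μ := by
      have : (fun x => f x ^ 4) = fun x => Real.exp (-(4 * Λ)) * Real.exp ((4 * β) * x) := by
        ext x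
        simp only [hf]
        rw [← Real.exp_nat_mul, ← Real.exp_add]
        congr 1; push_cast; ring
      rw [this]
      exact (hi (4 * β) (by linarith)).const_mul _
    rw [← hlaw 0 0] at h
    exact (integrable_map_measure (h.aestronglyMeasurable) (hom 0 0).aemeasurable).mp h
  · have := int_map f mf
    rw [show (∫ w, Real.exp (β * om 0 0 w - Λ) ∂P) = ∫ w, f (om 0 0 w) ∂P from rfl, this]
    have : f = fun x => Real.exp (-Λ) * Real.exp (β * x) := by
      ext x; simp only [hf]; rw [← Real.exp_add]; congr 1; ring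
    rw [this, integral_const_mul, ← e1, ← Real.exp_add]; simp
  · have := int_map (fun x => f x ^ 2) (mf.pow_const 2)
    rw [show (∫ w, Real.exp (β * om 0 0 w - Λ) ^ 2 ∂P) = ∫ w, f (om 0 0 w) ^ 2 ∂P from rfl, this]
    have : (fun x => f x ^ 2) = fun x => Real.exp (-(2 * Λ)) * Real.exp (2 * β * x) := by
      ext x
      simp only [hf]
      rw [← Real.exp_nat_mul, ← Real.exp_add]
      congr 1; push_cast; ring
    rw [this, integral_const_mul, ← e2, ← Real.exp_add]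
    ring_nf
  · have := int_map (fun x => |f x - 1| ^ 3) (((mf.sub_const 1).abs).pow_const 3)
    rw [show (∫ w, |Real.exp (β * om 0 0 w - Λ) - 1| ^ 3 ∂P) = ∫ w, |f (om 0 0 w) - 1| ^ 3 ∂P
      from rfl, this]
    exact h3
  · have := int_map (fun x => |f x - 1| ^ 4) (((mf.sub_const 1).abs).pow_const 4)
    rw [show (∫ w, |Real.exp (β * om 0 0 w - Λ) - 1| ^ 4 ∂P) = ∫ w, |f (om 0 0 w) - 1| ^ 4 ∂P
      from rfl, this]
    exact h4

/-- the variance -/
private theorem P5_var (μ : Measure ℝ) [IsProbabilityMeasure μ]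
    (hi : ∀ β : ℝ, 0 ≤ β → Integrable (fun x => Real.exp (β * x)) μ) (β : ℝ) (hβ : 0 ≤ β) :
    Integrable (fun x => (Real.exp (β * x - Real.log (∫ x, Real.exp (β * x) ∂μ)) - 1) ^ 2) μ ∧
    ∫ x, (Real.exp (β * x - Real.log (∫ x, Real.exp (β * x) ∂μ)) - 1) ^ 2 ∂μ =
      Real.exp (Real.log (∫ x, Real.exp (2 * β * x) ∂μ) -
          2 * Real.log (∫ x, Real.exp (β * x) ∂μ)) - 1 := by
  have hm1 : 0 < ∫ x, Real.exp (β * x) ∂μ := integral_exp_pos (hi β hβ)
  have hm2 : 0 < ∫ x, Real.exp (2 * β * x) ∂μ := integral_exp_pos (hi (2 * β) (by linarith))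
  have e1 : Real.exp (Real.log (∫ x, Real.exp (β * x) ∂μ)) = ∫ x, Real.exp (β * x) ∂μ :=
    Real.exp_log hm1
  have e2 : Real.exp (Real.log (∫ x, Real.exp (2 * β * x) ∂μ)) = ∫ x, Real.exp (2 * β * x) ∂μ :=
    Real.exp_log hm2
  set Λ := Real.log (∫ x, Real.exp (β * x) ∂μ) with hΛ
  set Λ2 := Real.log (∫ x, Real.exp (2 * β * x) ∂μ) with hΛ2
  have hfun : (fun x => (Real.exp (β * x - Λ) - 1) ^ 2) = fun x =>
      (Real.exp (-(2 * Λ)) * Real.exp (2 * β * x) - 2 * Real.exp (-Λ) * Real.exp (β * x)) + 1 := by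
    ext x
    have k1 : Real.exp (β * x - Λ) = Real.exp (-Λ) * Real.exp (β * x) := by
      rw [← Real.exp_add]; congr 1; ring
    have k2 : Real.exp (-(2 * Λ)) * Real.exp (2 * β * x) = (Real.exp (-Λ) * Real.exp (β * x)) ^ 2 := by
      rw [← Real.exp_add, ← Real.exp_add, ← Real.exp_nat_mul]; congr 1; push_cast; ring
    rw [k1, k2]; ring
  have i1 : Integrable (fun x => Real.exp (-(2 * Λ)) * Real.exp (2 * β * x)) μ :=
    (hi (2 * β) (by linarith)).const_mul _
  have i2 : Integrable (fun x => 2 * Real.exp (-Λ) * Real.exp (β * x)) μ :=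
    (hi β hβ).const_mul _
  constructor
  · rw [hfun]
    exact (i1.sub i2).add (integrable_const 1)
  · have i3 : Integrable (fun x => Real.exp (-(2 * Λ)) * Real.exp (2 * β * x) -
        2 * Real.exp (-Λ) * Real.exp (β * x)) μ := i1.sub i2
    rw [hfun, integral_add i3 (integrable_const 1), integral_sub i1 i2,
      integral_const_mul, integral_const_mul, ← e2, ← e1, ← Real.exp_add, mul_assoc,
      ← Real.exp_add]
    simp only [integral_const, probReal_univ, smul_eq_mul, mul_one]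
    rw [show -Λ + Λ = 0 by ring, Real.exp_zero, show -(2 * Λ) + Λ2 = Λ2 - 2 * Λ by ring]
    ring

theorem penv_of_law {Ω : Type*} [MeasurableSpace Ω] (P : Measure Ω) [IsProbabilityMeasure P]
    (μ : Measure ℝ) [IsProbabilityMeasure μ] (h0 : ∫ x, x ∂μ = 0)
    (h1 : ∫ x, x ^ 2 ∂μ = 1) (hi : ∀ β : ℝ, 0 ≤ β → Integrable (fun x => Real.exp (β * x)) μ)
    (om : ℕ → Z2 → Ω → ℝ) (hom : ∀ n x, Measurable (om n x))
    (hind : iIndepFun (fun p : ℕ × Z2 => om p.1 p.2) P) (hlaw : ∀ n x, P.map (om n x) = μ) :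
    ∃ C s0 : ℝ, 0 < C ∧ 0 < s0 ∧ ∀ β : ℝ, 0 ≤ β →
      (∃ C', PEnv P (fun n x w => Real.exp (β * om n x w - Real.log (∫ x, Real.exp (β * x) ∂μ)))
        (Real.exp (Real.log (∫ x, Real.exp (2 * β * x) ∂μ) - 2 * Real.log (∫ x, Real.exp (β * x) ∂μ)) - 1) C') ∧
      (Real.exp (Real.log (∫ x, Real.exp (2 * β * x) ∂μ) - 2 * Real.log (∫ x, Real.exp (β * x) ∂μ)) - 1 ≤ s0 →
        PEnv P (fun n x w => Real.exp (β * om n x w - Real.log (∫ x, Real.exp (β * x) ∂μ)))
          (Real.exp (Real.log (∫ x, Real.exp (2 * β * x) ∂μ) - 2 * Real.log (∫ x, Real.exp (β * x) ∂μ)) - 1) C) := by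
  obtain ⟨C, s0, hC, hs0, hb⟩ := Pool.Agent.Helper93.QC.law_bounds μ h0 h1 hi
  refine ⟨C, s0, hC, hs0, fun β hβ => ?_⟩
  obtain ⟨vi, ve⟩ := P5_var μ hi β hβ
  have hs : 0 ≤ Real.exp (Real.log (∫ x, Real.exp (2 * β * x) ∂μ) -
      2 * Real.log (∫ x, Real.exp (β * x) ∂μ)) - 1 := by
    rw [← ve]; exact integral_nonneg fun x => sq_nonneg _
  refine ⟨?_, fun hle => P5_core P μ hi om hom hind hlaw β hβ C hC.le (hb β hβ hle).1
    (hb β hβ hle).2 hs⟩
  rcases hs.eq_or_lt with hz | hpos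
  · refine ⟨0, P5_core P μ hi om hom hind hlaw β hβ 0 le_rfl ?_ ?_ hs⟩
    all_goals
      rw [← hz] at ve
      have hae := (integral_eq_zero_iff_of_nonneg (fun x => sq_nonneg _) vi).mp ve
      rw [zero_mul]
      apply le_of_eq
      apply integral_eq_zero_of_ae
      filter_upwards [hae] with x hx
      have : Real.exp (β * x - Real.log (∫ x, Real.exp (β * x) ∂μ)) - 1 = 0 := by
        simpa using hx
      rw [this]; simp
  · have n3 : 0 ≤ ∫ x, |Real.exp (β * x - Real.log (∫ x, Real.exp (β * x) ∂μ)) - 1| ^ 3 ∂μ :=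
      integral_nonneg fun x => by positivity
    have n4 : 0 ≤ ∫ x, |Real.exp (β * x - Real.log (∫ x, Real.exp (β * x) ∂μ)) - 1| ^ 4 ∂μ :=
      integral_nonneg fun x => by positivity
    refine ⟨((∫ x, |Real.exp (β * x - Real.log (∫ x, Real.exp (β * x) ∂μ)) - 1| ^ 3 ∂μ) +
      ∫ x, |Real.exp (β * x - Real.log (∫ x, Real.exp (β * x) ∂μ)) - 1| ^ 4 ∂μ) /
      (Real.exp (Real.log (∫ x, Real.exp (2 * β * x) ∂μ) -
      2 * Real.log (∫ x, Real.exp (β * x) ∂μ)) - 1),
      P5_core P μ hi om hom hind hlaw β hβ _ (by positivity) ?_ ?_ hs⟩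
    · rw [div_mul_cancel₀ _ hpos.ne']; linarith
    · rw [div_mul_cancel₀ _ hpos.ne']; linarith

end Pool.Agent.Helper79.QC
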